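import Pool.Agent.Helper4.Flip.Geo1

/-!
# Module GEO4: the chain of a convex polygon is weakly sorted
-/

set_option autoImplicit false

namespace Pool.Agent.Helper20.Flip

theorem wsorted_of_convex {N : ℕ} {c : List Edge} (h : Ok N c) (hc : IsConvex (polyOf N c)) :
    WSorted c := by
  have key : ∀ i : ℕ, ∀ hi : i + 1 < c.length, ((c)[i]'(by omega)).2 ≤ ((c)[i + 1]'hi).2 := by
    intro i hi
    have hN : c.length = N := h.1
    set e := (c)[i]'(by omega) with he
    set e' := (c)[i + 1]'hi with he'
    have hem : e ∈ c := List.getElem_mem _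
    have hem' : e' ∈ c := List.getElem_mem _
    obtain ⟨l0, l2, la⟩ := h.2.2 e hem
    obtain ⟨l0', l2', la'⟩ := h.2.2 e' hem'
    have h1 : vec (c.take (i + 1)) = vec (c.take i) + (e.1 * Real.cos e.2, e.1 * Real.sin e.2) := by
      rw [List.take_succ_eq_append_getElem (by omega), Geo1.vec_append]
      congr 1
      simp [vec, he]
    have h2 : vec (c.take (i + 1 + 1)) =
        vec (c.take (i + 1)) + (e'.1 * Real.cos e'.2, e'.1 * Real.sin e'.2) := by
      rw [List.take_succ_eq_append_getElem (by omega), Geo1.vec_append]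
      congr 1
      simp [vec, he']
    have h3 := hc (i : ZMod (N + 2)) ((i + 1 + 1 : ℕ) : ZMod (N + 2))
    have h4 : ((i : ZMod (N + 2)) + 1) = ((i + 1 : ℕ) : ZMod (N + 2)) := by push_cast; ring
    rw [h4, Geo1.poly_nat c (by omega), Geo1.poly_nat c (by omega), Geo1.poly_nat c (by omega), h2,
      h1] at h3
    have h5 : 0 ≤ e.1 * e'.1 * Real.sin (e'.2 - e.2) := by
      rw [Real.sin_sub]
      simp only [cross, Prod.fst_add, Prod.snd_add] at h3
      nlinarith [h3]
    have h6 : 0 ≤ Real.sin (e'.2 - e.2) := by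
      by_contra hneg
      push Not at hneg
      have := mul_neg_of_pos_of_neg (mul_pos l0 l0') hneg
      linarith
    by_contra hlt
    push Not at hlt
    have h7 : Real.sin (e'.2 - e.2) < 0 := by
      apply Real.sin_neg_of_neg_of_neg_pi_lt
      · linarith
      · have := Real.pi_gt_three
        have h8 := abs_le.1 la
        have h9 := abs_le.1 la'
        linarith [h8.1, h8.2, h9.1, h9.2]
    linarith
  have htrans : IsTrans Edge (fun e e' => e.2 ≤ e'.2) := ⟨fun a b c h1 h2 => le_trans h1 h2⟩
  unfold WSorted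
  rw [← List.isChain_iff_pairwise, List.isChain_iff_getElem]
  intro i hi
  exact key i hi

end Pool.Agent.Helper20.Flip
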